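import Pool.Agent.Helper95_PA.Defs

/-!
# Module B: from the canonical partition theorem to a family
-/

set_option autoImplicit false

namespace Pool.Agent.Helper51_PA

open Pool.Agent.Helper95_PA

/-! ### isometric embeddings -/

/-- isometric maps -/
def Iso {L : Type} [Lattice L] {ρ : L} (B C : Sp L ρ) (f : B.carrier → C.carrier) : Prop :=
  ∀ x y, C.d (f x) (f y) = B.d x y

section seq

variable {L : Type} [Lattice L] [BoundedOrder L] [Finite L]

/-- the initial space: three points at pairwise similarity `⊥` and for each `s ≠ ⊤` two points at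
similarity `s` -/
abbrev C0 (L : Type) [Lattice L] [BoundedOrder L] : Type := Fin 3 ⊕ ({s : L // s ≠ ⊤} × Bool)

open Classical in
/-- the similarity of the initial space -/
noncomputable def d0 (x y : C0 L) : L :=
  if x = y then ⊤ else
    match x, y with
    | Sum.inr a, Sum.inr b => if a.1 = b.1 then a.1.1 else ⊥
    | _, _ => ⊥

omit [Finite L] in
theorem d0_self (x : C0 L) : d0 x x = ⊤ := by simp [d0]

omit [Finite L] in
theorem d0_cases {x y : C0 L} (h : x ≠ y) : d0 x y = ⊥ ∨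
    ∃ (s : {s : L // s ≠ ⊤}) (a b : Bool), x = Sum.inr (s, a) ∧ y = Sum.inr (s, b) ∧
      d0 x y = s.1 := by
  rcases x with x | ⟨s, a⟩ <;> rcases y with y | ⟨t, b⟩
  · left; simp [d0, h]
  · left; simp [d0]
  · left; simp [d0]
  · by_cases hst : s = t
    · subst hst
      right
      refine ⟨s, a, b, rfl, rfl, ?_⟩
      simp only [d0, if_neg h, if_true]
    · left
      simp only [d0, if_neg h, if_neg hst]

omit [Finite L] in
theorem d0_symm (x y : C0 L) : d0 x y = d0 y x := by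
  by_cases h : x = y
  · rw [h]
  rcases x with x | ⟨s, a⟩ <;> rcases y with y | ⟨t, b⟩
  · simp [d0, h, Ne.symm h]
  · simp [d0]
  · simp [d0]
  · by_cases hst : s = t
    · subst hst
      simp only [d0, if_neg h, if_neg (Ne.symm h), if_true]
    · simp only [d0, if_neg h, if_neg (Ne.symm h), if_neg hst, if_neg (Ne.symm hst)]

omit [Finite L] in
theorem d0_tri (x y z : C0 L) : d0 x y ⊓ d0 y z ≤ d0 x z := by
  by_cases hxz : x = z
  · rw [hxz, d0_self]; exact le_top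
  by_cases hxy : x = y
  · rw [hxy]; exact inf_le_right
  by_cases hyz : y = z
  · rw [hyz]; exact inf_le_left
  rcases d0_cases hxy with h | ⟨s, a, b, h1, h2, -⟩
  · rw [h, bot_inf_eq]; exact bot_le
  rcases d0_cases hyz with h | ⟨t, b', c, h3, h4, -⟩
  · rw [h, inf_bot_eq]; exact bot_le
  exfalso
  have h5 : s = t ∧ b = b' := by
    have := h2.symm.trans h3
    simpa using this
  obtain ⟨rfl, rfl⟩ := h5
  subst h1 h2 h4
  have e1 : a ≠ b := fun e => hxy (by rw [e])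
  have e2 : b ≠ c := fun e => hyz (by rw [e])
  have e3 : a ≠ c := fun e => hxz (by rw [e])
  revert e1 e2 e3
  cases a <;> cases b <;> cases c <;> simp

/-- the initial space -/
noncomputable def sp0 (hL : (⊥ : L) ≠ ⊤) : Sp L ⊤ where
  carrier := C0 L
  fin := inferInstance
  d := d0
  d_self := d0_self
  symm := d0_symm
  tri := d0_tri
  sep x y h := by
    by_contra hne
    rcases d0_cases hne with h1 | ⟨s, a, b, -, -, h1⟩
    · exact hL (h1.symm.trans h)
    · exact s.2 (h1.symm.trans h)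

variable (hcan : CanStatement) (hL : (⊥ : L) ≠ ⊤)

/-- the tower of spaces -/
noncomputable def BB : ℕ → Sp L ⊤
  | 0 => sp0 hL
  | n + 1 => (hcan L ⊤ (BB n)).choose

theorem can_BB (n : ℕ) : Can (BB hcan hL n) (BB hcan hL (n + 1)) :=
  (hcan L ⊤ (BB hcan hL n)).choose_spec

theorem exists_iso_succ (n : ℕ) : ∃ f, Iso (BB hcan hL n) (BB hcan hL (n + 1)) f := by
  obtain ⟨f, _, hf, _⟩ := can_BB hcan hL n (fun _ _ => True)
    ⟨fun _ => trivial, fun _ => trivial, fun _ _ => trivial⟩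
  exact ⟨f, hf⟩

theorem exists_iso {n m : ℕ} (h : n ≤ m) : ∃ f, Iso (BB hcan hL n) (BB hcan hL m) f := by
  induction m, h using Nat.le_induction with
  | base => exact ⟨id, fun _ _ => rfl⟩
  | succ m _ ih =>
    obtain ⟨f, hf⟩ := ih
    obtain ⟨g, hg⟩ := exists_iso_succ hcan hL m
    exact ⟨g ∘ f, fun x y => (hg _ _).trans (hf _ _)⟩

/-- the points -/
abbrev XX : Type := Σ n, (BB hcan hL n).carrier

/-- the equivalence relations -/
def EE (r : L) (x y : XX hcan hL) : Prop :=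
  ∃ h : x.1 = y.1, r ≤ (BB hcan hL y.1).d (h ▸ x.2) y.2

theorem EE_mk (r : L) (n : ℕ) (x y : (BB hcan hL n).carrier) :
    EE hcan hL r ⟨n, x⟩ ⟨n, y⟩ ↔ r ≤ (BB hcan hL n).d x y := by
  constructor
  · rintro ⟨_, h⟩; exact h
  · intro h; exact ⟨rfl, h⟩

/-- large sets -/
def LL (S : Set (XX hcan hL)) : Prop :=
  ∀ n N : ℕ, ∃ m ≥ N, ∃ f, Iso (BB hcan hL n) (BB hcan hL m) f ∧ ∀ x, (⟨m, f x⟩ : XX hcan hL) ∈ S

theorem LL_univ : LL hcan hL Set.univ := by
  intro n N
  obtain ⟨f, hf⟩ := exists_iso hcan hL (le_max_left n N)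
  exact ⟨max n N, le_max_right _ _, f, hf, fun _ => trivial⟩

/-- a canonical copy of `B n` in `S ∩ B m` -/
def QQ (S : Set (XX hcan hL)) (f : XX hcan hL → ℕ) (r : L) (c : Fin 2) (n m : ℕ) : Prop :=
  ∃ g, Iso (BB hcan hL n) (BB hcan hL m) g ∧ (∀ x, (⟨m, g x⟩ : XX hcan hL) ∈ S) ∧
    (∀ x y, f ⟨m, g x⟩ = f ⟨m, g y⟩ ↔ r ≤ (BB hcan hL n).d x y) ∧
    ((∀ x, f x = 0 ∨ f x = 1) → ∀ x, f ⟨m, g x⟩ = (c : ℕ))

theorem QQ_mono {S : Set (XX hcan hL)} {f : XX hcan hL → ℕ} {r : L} {c : Fin 2} {n n' m : ℕ}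
    (h : n ≤ n') (hQ : QQ hcan hL S f r c n' m) : QQ hcan hL S f r c n m := by
  obtain ⟨g, h1, h2, h3, h4⟩ := hQ
  obtain ⟨i, hi⟩ := exists_iso hcan hL h
  refine ⟨g ∘ i, fun x y => (h1 _ _).trans (hi _ _), fun x => h2 _, fun x y => ?_,
    fun h x => h4 h _⟩
  rw [← hi x y]
  exact h3 _ _

theorem QQ_exists {S : Set (XX hcan hL)} (hS : LL hcan hL S) (f : XX hcan hL → ℕ) (n N : ℕ) :
    ∃ m ≥ N, ∃ (r : L) (c : Fin 2), QQ hcan hL S f r c n m := by
  obtain ⟨m, hm, g, hg, hgS⟩ := hS (n + 1) N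
  obtain ⟨h, r, hh, hr⟩ := can_BB hcan hL n (fun x y => f ⟨m, g x⟩ = f ⟨m, g y⟩)
    ⟨fun _ => rfl, fun h => h.symm, fun h h' => h.trans h'⟩
  by_cases h01 : ∀ x, f x = 0 ∨ f x = 1
  · -- `r = ⊥`
    obtain ⟨i, hi⟩ := exists_iso hcan hL (Nat.zero_le n)
    have hi' : ∀ x y : C0 L, (BB hcan hL n).d (i x) (i y) = d0 x y := hi
    have hr0 : r = ⊥ := by
      by_contra hne
      have key : ∀ a b : Fin 3, a ≠ b → f ⟨m, g (h (i (Sum.inl a)))⟩ ≠ f ⟨m, g (h (i (Sum.inl b)))⟩ := by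
        intro a b hab heq
        have h1 := (hr _ _).1 heq
        rw [hi'] at h1
        have h2 : d0 (L := L) (Sum.inl a) (Sum.inl b) = ⊥ := by
          rcases d0_cases (x := (Sum.inl a : C0 L)) (y := Sum.inl b)
            (fun e => hab (by simpa using e)) with h3 | ⟨s, _, _, h3, _⟩
          · exact h3
          · simp at h3
        rw [h2] at h1
        exact hne (le_bot_iff.1 h1)
      have k1 := key 0 1 (by decide)
      have k2 := key 0 2 (by decide)
      have k3 := key 1 2 (by decide)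
      rcases h01 ⟨m, g (h (i (Sum.inl 0)))⟩ with a0 | a0 <;>
      rcases h01 ⟨m, g (h (i (Sum.inl 1)))⟩ with a1 | a1 <;>
      rcases h01 ⟨m, g (h (i (Sum.inl 2)))⟩ with a2 | a2 <;>
      rw [a0, a1] at k1 <;> rw [a0, a2] at k2 <;> rw [a1, a2] at k3 <;> omega
    set x₀ := h (i (Sum.inl 0)) with hx₀
    have hlt : f ⟨m, g x₀⟩ < 2 := by
      rcases h01 ⟨m, g x₀⟩ with a | a <;> omega
    refine ⟨m, hm, r, ⟨f ⟨m, g x₀⟩, hlt⟩, g ∘ h, fun x y => (hg _ _).trans (hh _ _),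
      fun x => hgS _, hr, fun _ x => ?_⟩
    exact (hr _ _).2 (by rw [hr0]; exact bot_le)
  · exact ⟨m, hm, r, 0, g ∘ h, fun x y => (hg _ _).trans (hh _ _), fun x => hgS _, hr,
      fun h' => absurd h' h01⟩

theorem QQ_uniform {S : Set (XX hcan hL)} (hS : LL hcan hL S) (f : XX hcan hL → ℕ) :
    ∃ (r : L) (c : Fin 2), ∀ n N : ℕ, ∃ m ≥ N, QQ hcan hL S f r c n m := by
  by_contra hcon
  push Not at hcon
  choose n N h using hcon
  have hfin : Finite (L × Fin 2) := inferInstance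
  obtain ⟨nb, hnb⟩ := (Set.finite_range fun p : L × Fin 2 => n p.1 p.2).bddAbove
  obtain ⟨Nb, hNb⟩ := (Set.finite_range fun p : L × Fin 2 => N p.1 p.2).bddAbove
  obtain ⟨m, hm, r, c, hQ⟩ := QQ_exists hcan hL hS f nb Nb
  exact h r c m ((hNb ⟨(r, c), rfl⟩).trans hm) (QQ_mono hcan hL (hnb ⟨(r, c), rfl⟩) hQ)

theorem LL_sel {S : Set (XX hcan hL)} (hS : LL hcan hL S) (f : XX hcan hL → ℕ) :
    ∃ S' ⊆ S, LL hcan hL S' ∧
      (∃ r, ∀ x ∈ S', ∀ y ∈ S', EE hcan hL ⊥ x y → (f x = f y ↔ EE hcan hL r x y)) ∧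
      ((∀ x, f x = 0 ∨ f x = 1) → ∃ c, ∀ x ∈ S', f x = c) := by
  obtain ⟨r, c, h⟩ := QQ_uniform hcan hL hS f
  choose M hM hQ using h
  set m : ℕ → ℕ := fun j => Nat.rec (M 0 0) (fun j p => M (j + 1) (p + 1)) j with hm
  have hm1 : ∀ j, m j < m (j + 1) := fun j => Nat.lt_of_succ_le (hM (j + 1) (m j + 1))
  have hmono : StrictMono m := strictMono_nat_of_lt_succ hm1
  have hQm : ∀ j, QQ hcan hL S f r c j (m j) := fun j => by
    cases j with
    | zero => exact hQ 0 0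
    | succ j => exact hQ (j + 1) (m j + 1)
  choose g hg1 hg2 hg3 hg4 using hQm
  refine ⟨{p | ∃ j x, p = ⟨m j, g j x⟩}, ?_, ?_, ⟨r, ?_⟩, ?_⟩
  · rintro _ ⟨j, x, rfl⟩; exact hg2 j x
  · intro n N
    obtain ⟨i, hi⟩ := exists_iso hcan hL (le_max_left n N)
    refine ⟨m (max n N), (le_max_right n N).trans hmono.le_apply, g _ ∘ i,
      fun x y => (hg1 _ _ _).trans (hi _ _), fun x => ⟨_, _, rfl⟩⟩
  · rintro _ ⟨j, x, rfl⟩ _ ⟨j', y, rfl⟩ ⟨he, _⟩
    have hj : j = j' := hmono.injective he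
    subst hj
    rw [EE_mk, hg1]
    exact hg3 _ _ _
  · intro h01
    exact ⟨c, by rintro _ ⟨j, x, rfl⟩; exact hg4 j h01 x⟩

/-- the family -/
noncomputable def fam1 : Fam L where
  X := XX hcan hL
  countable := by
    have : ∀ n, Finite (BB hcan hL n).carrier := fun n => (BB hcan hL n).fin
    infer_instance
  E := EE hcan hL
  equiv r := by
    refine ⟨?_, ?_, ?_⟩
    · rintro ⟨n, x⟩
      rw [EE_mk, (BB hcan hL n).d_self]
      exact le_top
    · rintro ⟨n, x⟩ ⟨m, y⟩ ⟨h, h'⟩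
      dsimp only at h
      subst h
      rw [EE_mk, (BB hcan hL n).symm]
      exact h'
    · rintro ⟨n, x⟩ ⟨m, y⟩ ⟨k, z⟩ ⟨h1, h1'⟩ ⟨h2, h2'⟩
      dsimp only at h1 h2
      subst h1 h2
      rw [EE_mk]
      exact (le_inf h1' h2').trans ((BB hcan hL n).tri x y z)
  finite := by
    rintro ⟨n, x⟩
    have : Finite (BB hcan hL n).carrier := (BB hcan hL n).fin
    refine (Set.finite_range fun y : (BB hcan hL n).carrier => (⟨n, y⟩ : XX hcan hL)).subset ?_
    rintro ⟨m, y⟩ ⟨h, -⟩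
    dsimp only at h
    subst h
    exact ⟨y, rfl⟩
  top := by
    rintro ⟨n, x⟩ ⟨m, y⟩ ⟨h, h'⟩
    dsimp only at h
    subst h
    rw [(BB hcan hL n).sep x y (top_le_iff.1 h')]
  sup := by
    rintro r s ⟨n, x⟩ ⟨m, y⟩
    constructor
    · rintro ⟨h, h'⟩
      exact ⟨⟨h, (sup_le_iff.1 h').1⟩, ⟨h, (sup_le_iff.1 h').2⟩⟩
    · rintro ⟨⟨h, h'⟩, ⟨_, h''⟩⟩
      exact ⟨h, sup_le h' h''⟩
  Large := LL hcan hL
  large_univ := LL_univ hcan hL
  large_sel S hS f := LL_sel hcan hL hS f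
  large_nonempty S hS := by
    obtain ⟨m, _, f, _, h⟩ := hS 0 0
    exact ⟨_, h (Sum.inl 0 : C0 L)⟩
  large_faithful S hS r s h := by
    by_cases hs : s = ⊤
    · rw [hs]; exact le_top
    obtain ⟨m, _, f, hf, hfS⟩ := hS 0 0
    set x : C0 L := Sum.inr (⟨s, hs⟩, true)
    set y : C0 L := Sum.inr (⟨s, hs⟩, false)
    have hd : d0 x y = s := by
      simp [d0, x, y]
    have hd' : (BB hcan hL m).d (f x) (f y) = s := (hf x y).trans hd
    have h1 := h _ (hfS x) _ (hfS y) (by rw [EE_mk, hd'])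
    rw [EE_mk, hd'] at h1
    exact h1

end seq

/-! ### the one-element lattice -/

/-- the family for the one-element lattice -/
noncomputable def fam0 (L : Type) [Lattice L] [BoundedOrder L] (hL : (⊥ : L) = ⊤) : Fam L where
  X := ℕ
  countable := inferInstance
  E _ x y := x = y
  equiv _ := eq_equivalence
  finite x := by simp
  top _ _ h := h
  sup _ _ _ _ := by simp
  Large S := S.Infinite
  large_univ := Set.infinite_univ
  large_sel S hS f := by
    by_cases h01 : ∀ x, f x = 0 ∨ f x = 1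
    · have e : S = (S ∩ {x | f x = 0}) ∪ (S ∩ {x | f x = 1}) := by
        ext x
        constructor
        · intro hx
          rcases h01 x with h | h
          · exact Or.inl ⟨hx, h⟩
          · exact Or.inr ⟨hx, h⟩
        · rintro (h | h) <;> exact h.1
      have hS' := hS
      rw [e, Set.infinite_union] at hS'
      rcases hS' with h | h
      · exact ⟨_, Set.inter_subset_left, h, ⟨⊥, fun x _ y _ hxy => by simp [hxy]⟩,
          fun _ => ⟨0, fun x hx => hx.2⟩⟩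
      · exact ⟨_, Set.inter_subset_left, h, ⟨⊥, fun x _ y _ hxy => by simp [hxy]⟩,
          fun _ => ⟨1, fun x hx => hx.2⟩⟩
    · exact ⟨S, subset_rfl, hS, ⟨⊥, fun x _ y _ hxy => by simp [hxy]⟩, fun h => absurd h h01⟩
  large_nonempty S hS := hS.nonempty
  large_faithful S _ r s _ := by
    have h1 : r ≤ ⊤ := le_top
    rw [← hL] at h1
    exact h1.trans bot_le

/-- MODULE B -/
theorem fam_of_can : CanStatement → FamStatement := by
  intro hcan L _ _ _
  by_cases hL : (⊥ : L) = ⊤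
  · exact ⟨fam0 L hL⟩
  · exact ⟨fam1 hcan hL⟩

end Pool.Agent.Helper51_PA
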