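import Pool.Agent.Helper95_PA.Defs

/-!
# Module C: a countable algebra of functions and a generic sequence of large sets
-/

set_option autoImplicit false

namespace Pool.Agent.Helper51_PA

open Pool.Agent.Helper95_PA FirstOrder FirstOrder.Language

/-! ### closure under countably many finitary operations -/

/-- values of terms -/
def evW {Y I : Type} (ar : I → ℕ) (op : ∀ i, (Fin (ar i) → Y) → Y) :
    WType (fun i : I => Fin (ar i)) → Y
  | ⟨i, v⟩ => op i fun j => evW ar op (v j)

theorem exists_closure {Y I : Type} [Countable I] (ar : I → ℕ)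
    (op : ∀ i, (Fin (ar i) → Y) → Y) :
    ∃ D : Set Y, D.Countable ∧ ∀ i v, (∀ j, v j ∈ D) → op i v ∈ D := by
  have := Encodable.ofCountable I
  have hW : Countable (WType (fun i : I => Fin (ar i))) := Encodable.countable
  refine ⟨Set.range (evW ar op), Set.countable_range _, fun i v hv => ?_⟩
  choose w hw using hv
  refine ⟨⟨i, w⟩, ?_⟩
  simp only [evW, hw]

theorem countable_P0 : P0.Countable := by
  unfold P0
  refine (Set.countable_range _).union ?_
  exact Set.Finite.countable (Set.toFinite _)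

section

variable {L : Type} [Lattice L] [BoundedOrder L] [Finite L] (F : Fam L)

/-! ### functions defining the equivalence relations -/

/-- an injection into `ℕ` -/
noncomputable def inj (F : Fam L) : F.X → ℕ :=
  haveI := F.countable
  (exists_injective_nat F.X).choose

omit [Finite L] in
theorem inj_injective : Function.Injective (inj F) :=
  haveI := F.countable
  (exists_injective_nat F.X).choose_spec

/-- the least element of the class -/
noncomputable def ee (r : L) (x : F.X) : ℕ := sInf (inj F '' {y | F.E r x y})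

omit [Finite L] in
theorem ee_iff (r : L) (x y : F.X) : ee F r x = ee F r y ↔ F.E r x y := by
  constructor
  · intro h
    have h1 : ee F r x ∈ inj F '' {z | F.E r x z} :=
      Nat.sInf_mem ⟨_, x, (F.equiv r).refl x, rfl⟩
    have h2 : ee F r y ∈ inj F '' {z | F.E r y z} :=
      Nat.sInf_mem ⟨_, y, (F.equiv r).refl y, rfl⟩
    obtain ⟨z, hz, hz'⟩ := h1
    obtain ⟨w, hw, hw'⟩ := h2
    have : z = w := inj_injective F (by rw [hz', hw', h])
    subst this
    exact (F.equiv r).trans hz ((F.equiv r).symm hw)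
  · intro h
    unfold ee
    congr 2
    ext z
    exact ⟨fun hz => (F.equiv r).trans ((F.equiv r).symm h) hz, fun hz => (F.equiv r).trans h hz⟩

/-! ### selection -/

open Classical in
/-- the selected subset -/
noncomputable def selS (S : Set F.X) (f : F.X → ℕ) : Set F.X :=
  if h : F.Large S then (F.large_sel S h f).choose else S

omit [Finite L] in
theorem selS_spec {S : Set F.X} (hS : F.Large S) (f : F.X → ℕ) :
    selS F S f ⊆ S ∧ F.Large (selS F S f) ∧
    (∃ r, ∀ x ∈ selS F S f, ∀ y ∈ selS F S f, F.E ⊥ x y → (f x = f y ↔ F.E r x y)) ∧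
    ((∀ x, f x = 0 ∨ f x = 1) → ∃ c, ∀ x ∈ selS F S f, f x = c) := by
  unfold selS
  rw [dif_pos hS]
  exact (F.large_sel S hS f).choose_spec

open Classical in
/-- the indicator function -/
noncomputable def ind {X : Type} (S : Set X) (x : X) : ℕ := if x ∈ S then 1 else 0

/-- the set with a given indicator function -/
def supp {X : Type} (v : X → ℕ) : Set X := {x | v x = 1}

theorem supp_ind {X : Type} (S : Set X) : supp (ind S) = S := by
  ext x
  unfold supp ind
  by_cases h : x ∈ S <;> simp [h]

/-! ### coding -/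

open Classical in
/-- the value of the function `h y ↦ f y`, `y ∈ c ∩ S`, at `i` -/
noncomputable def val {X : Type} (c S : Set X) (f h : X → ℕ) (i : ℕ) : ℕ :=
  if H : ∃ y, y ∈ c ∧ y ∈ S ∧ h y = i then f H.choose else 0

/-- the code of the function `h y ↦ f y`, `y ∈ c ∩ S` -/
noncomputable def cd {X : Type} (c S : Set X) (f h : X → ℕ) : ℕ :=
  Nat.unbeta ((List.range (sSup (h '' c) + 1)).map (val c S f h))

theorem cd_spec {X : Type} {c S : Set X} (hc : c.Finite) {f h : X → ℕ}
    (hfh : ∀ x ∈ c, x ∈ S → ∀ y ∈ c, y ∈ S → h x = h y → f x = f y) {x : X} (hx : x ∈ c)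
    (hxS : x ∈ S) :
    f x = (cd c S f h).unpair.1 % ((h x + 1) * (cd c S f h).unpair.2 + 1) := by
  have hlt : h x < sSup (h '' c) + 1 :=
    Nat.lt_succ_of_le (le_csSup (hc.image h).bddAbove ⟨x, hx, rfl⟩)
  set l := (List.range (sSup (h '' c) + 1)).map (val c S f h) with hl
  have hlen : l.length = sSup (h '' c) + 1 := by simp [hl]
  have h1 := Nat.beta_unbeta_coe l ⟨h x, by rw [hlen]; exact hlt⟩
  have h2 : l[(⟨h x, by rw [hlen]; exact hlt⟩ : Fin l.length)] = val c S f h (h x) := by
    simp [hl]
  have h3 : val c S f h (h x) = f x := by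
    have H : ∃ y, y ∈ c ∧ y ∈ S ∧ h y = h x := ⟨x, hx, hxS, rfl⟩
    unfold val
    rw [dif_pos H]
    exact hfh _ H.choose_spec.1 H.choose_spec.2.1 x hx hxS H.choose_spec.2.2
  rw [h2, h3] at h1
  exact h1.symm

/-! ### the operations -/

/-- the index set of the operations -/
abbrev II (L : Type) : Type := P0 ⊕ (L ⊕ Fin 4)

/-- the arities -/
def arI : II L → ℕ
  | Sum.inl p => p.1.1
  | Sum.inr (Sum.inl _) => 0
  | Sum.inr (Sum.inr 0) => 0
  | Sum.inr (Sum.inr 1) => 2
  | Sum.inr (Sum.inr 2) => 3
  | Sum.inr (Sum.inr 3) => 3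

/-- the operations -/
noncomputable def opI : ∀ i : II L, (Fin (arI i) → (F.X → ℕ)) → (F.X → ℕ)
  | Sum.inl p, v => fun t => p.1.2 fun i => v i t
  | Sum.inr (Sum.inl r), _ => ee F r
  | Sum.inr (Sum.inr 0), _ => ind Set.univ
  | Sum.inr (Sum.inr 1), v => ind (selS F (supp (v (0 : Fin 2))) (v (1 : Fin 2)))
  | Sum.inr (Sum.inr 2), v => fun x =>
      (cd {y | F.E ⊥ x y} (supp (v (0 : Fin 3))) (v (1 : Fin 3)) (v (2 : Fin 3))).unpair.1
  | Sum.inr (Sum.inr 3), v => fun x =>
      (cd {y | F.E ⊥ x y} (supp (v (0 : Fin 3))) (v (1 : Fin 3)) (v (2 : Fin 3))).unpair.2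

/-- the sequence of sets -/
noncomputable def sq (g : ℕ → F.X → ℕ) : ℕ → Set F.X
  | 0 => Set.univ
  | k + 1 => selS F (sq g k) (g k)

omit [Finite L] in
theorem sq_large (g : ℕ → F.X → ℕ) (k : ℕ) : F.Large (sq F g k) := by
  induction k with
  | zero => exact F.large_univ
  | succ k ih => exact (selS_spec F ih (g k)).2.1

omit [Finite L] in
theorem sq_anti (g : ℕ → F.X → ℕ) : Antitone (sq F g) :=
  antitone_nat_of_succ_le fun k => (selS_spec F (sq_large F g k) (g k)).1

theorem gen_aux : Nonempty (Gen F) := by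
  have hc : Countable P0 := countable_P0.to_subtype
  obtain ⟨D, hD, hop⟩ := exists_closure (arI (L := L)) (opI F)
  have hone : ind Set.univ ∈ D := hop (Sum.inr (Sum.inr 0)) (fun j => Fin.elim0 j)
    (fun j => Fin.elim0 j)
  obtain ⟨g, hg⟩ := hD.exists_eq_range ⟨_, hone⟩
  have hgD : ∀ k, g k ∈ D := fun k => by rw [hg]; exact ⟨k, rfl⟩
  have hsD : ∀ k, ind (sq F g k) ∈ D := by
    intro k
    induction k with
    | zero => exact hone
    | succ k ih =>
      have h1 := hop (Sum.inr (Sum.inr 1)) (![ind (sq F g k), g k] : Fin 2 → F.X → ℕ)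
        (fun j => by
          change Fin 2 at j
          fin_cases j
          · exact ih
          · exact hgD k)
      have h2 : opI F (Sum.inr (Sum.inr 1)) (![ind (sq F g k), g k] : Fin 2 → F.X → ℕ) =
          ind (sq F g (k + 1)) := by
        change ind (selS F (supp (ind (sq F g k))) (g k)) = _
        rw [supp_ind]
        rfl
      rwa [h2] at h1
  have hlt := fun k => selS_spec F (sq_large F g k) (g k)
  refine ⟨{ D := D
            closed := fun p hp f hf => hop (Sum.inl ⟨p, hp⟩) f hf
            e := ee F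
            e_mem := fun r => hop (Sum.inr (Sum.inl r)) (fun j => Fin.elim0 j)
              (fun j => Fin.elim0 j)
            e_iff := fun r x y _ => ee_iff F r x y
            S := sq F g
            anti := sq_anti F g
            large := sq_large F g
            can := ?_
            dec := ?_
            code := ?_ }⟩
  · intro f hf
    rw [hg] at hf
    obtain ⟨k, rfl⟩ := hf
    obtain ⟨r, hr⟩ := (hlt k).2.2.1
    exact ⟨k + 1, r, hr⟩
  · intro f hf h01
    rw [hg] at hf
    obtain ⟨k, rfl⟩ := hf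
    obtain ⟨c, hc⟩ := (hlt k).2.2.2 h01
    exact ⟨k + 1, c, hc⟩
  · intro f hf h hh k hfh
    have hv : ∀ j : Fin 3, (![ind (sq F g k), f, h] : Fin 3 → F.X → ℕ) j ∈ D := by
      intro j
      fin_cases j
      · exact hsD k
      · exact hf
      · exact hh
    have ha := hop (Sum.inr (Sum.inr 2)) (![ind (sq F g k), f, h] : Fin 3 → F.X → ℕ) hv
    have hb := hop (Sum.inr (Sum.inr 3)) (![ind (sq F g k), f, h] : Fin 3 → F.X → ℕ) hv
    have ea : opI F (Sum.inr (Sum.inr 2)) (![ind (sq F g k), f, h] : Fin 3 → F.X → ℕ) =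
        fun x => (cd {y | F.E ⊥ x y} (sq F g k) f h).unpair.1 := by
      change (fun x => (cd {y | F.E ⊥ x y} (supp (ind (sq F g k))) f h).unpair.1) = _
      rw [supp_ind]
    have eb : opI F (Sum.inr (Sum.inr 3)) (![ind (sq F g k), f, h] : Fin 3 → F.X → ℕ) =
        fun x => (cd {y | F.E ⊥ x y} (sq F g k) f h).unpair.2 := by
      change (fun x => (cd {y | F.E ⊥ x y} (supp (ind (sq F g k))) f h).unpair.2) = _
      rw [supp_ind]
    rw [ea] at ha
    rw [eb] at hb
    have hcls : ∀ x y, F.E ⊥ x y → {z | F.E ⊥ x z} = {z | F.E ⊥ y z} := fun x y hxy => by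
      ext z
      exact ⟨fun hz => (F.equiv ⊥).trans ((F.equiv ⊥).symm hxy) hz,
        fun hz => (F.equiv ⊥).trans hxy hz⟩
    refine ⟨_, ha, _, hb, fun x y hxy => ?_, fun x y hxy => ?_, fun x hx => ?_⟩
    · simp only [hcls x y hxy]
    · simp only [hcls x y hxy]
    · refine cd_spec (F.finite x) ?_ ((F.equiv ⊥).refl x) hx
      intro y hy hyS z hz hzS hyz
      exact hfh y hyS z hzS ((F.equiv ⊥).trans ((F.equiv ⊥).symm hy) hz) hyz

end

/-- MODULE C -/
theorem gen : GenStatement := by
  intro L _ _ _ F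
  exact gen_aux F

end Pool.Agent.Helper51_PA
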